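import Mathlib

/-! Random integers with independent uniform digits in arbitrary bases: sets of integers which are thinner than any power of the
logarithm, in residue classes. The digits `ω_i`, `0 ≤ ω_i < b_i + 2`, are independent and uniform; `m_j` is the product of the
first `j` bases `b_i + 2`, and `n_j = ω_0 + ω_1 m_1 + … + ω_(j-1) m_(j-1)`. Almost surely, for all large `j`, no element of the
set of absolute value at most `m_j (log m_j) ^ B` is congruent to `n_j` modulo `m_j`. -/

set_option autoImplicit false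

open Finset Filter Topology MeasureTheory

namespace Pool.Agent.V11312.PD

/-- the product of the first `j` bases -/
def modulus (b : ℕ → ℕ) (j : ℕ) : ℕ := ∏ i ∈ range j, (b i + 2)

/-- the integer with the digits `ω_0, …, ω_(j-1)` -/
def value (b : ℕ → ℕ) (ω : ∀ i, Fin (b i + 2)) (j : ℕ) : ℕ := ∑ i ∈ range j, (ω i : ℕ) * modulus b i

/-- the law of independent uniform digits -/
noncomputable def law (b : ℕ → ℕ) : Measure (∀ i, Fin (b i + 2)) :=
  Measure.infinitePi fun i => (PMF.uniformOfFintype (Fin (b i + 2))).toMeasure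

lemma modulus_pos (b : ℕ → ℕ) (j : ℕ) : 0 < modulus b j := prod_pos fun i _ => by omega

lemma modulus_succ (b : ℕ → ℕ) (j : ℕ) : modulus b (j + 1) = modulus b j * (b j + 2) := prod_range_succ _ _

lemma two_pow_le (b : ℕ → ℕ) (j : ℕ) : 2 ^ j ≤ modulus b j := by
  induction j with
  | zero => simp [modulus]
  | succ j ih =>
    rw [modulus_succ, pow_succ]
    exact Nat.mul_le_mul ih (by omega)

lemma value_lt (b : ℕ → ℕ) (ω : ∀ i, Fin (b i + 2)) (j : ℕ) : value b ω j < modulus b j := by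
  induction j with
  | zero => simp [value, modulus]
  | succ j ih =>
    rw [modulus_succ, value, sum_range_succ, ← value]
    have h1 : (ω j : ℕ) + 1 ≤ b j + 2 := (ω j).2
    calc value b ω j + (ω j : ℕ) * modulus b j < modulus b j + (ω j : ℕ) * modulus b j := by omega
      _ = modulus b j * ((ω j : ℕ) + 1) := by ring
      _ ≤ modulus b j * (b j + 2) := Nat.mul_le_mul_left _ h1

lemma digits_eq (b : ℕ → ℕ) (ω ω' : ∀ i, Fin (b i + 2)) (j : ℕ) (h : value b ω j = value b ω' j) :
    ∀ i < j, ω i = ω' i := by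
  induction j with
  | zero =>
    intro i hi
    omega
  | succ j ih =>
    have e : ∀ w : (∀ i, Fin (b i + 2)), value b w (j + 1) = value b w j + (w j : ℕ) * modulus b j := by
      intro w
      rw [value, sum_range_succ, ← value]
    rw [e, e] at h
    have hm := modulus_pos b j
    have h1 := value_lt b ω j
    have h2 := value_lt b ω' j
    have h3 : value b ω j = value b ω' j := by
      have := congrArg (· % modulus b j) h
      simp only [Nat.add_mul_mod_self_right] at this
      rwa [Nat.mod_eq_of_lt h1, Nat.mod_eq_of_lt h2] at this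
    have h4 : (ω j : ℕ) = ω' j := by
      rw [h3] at h
      exact Nat.eq_of_mul_eq_mul_right hm (Nat.add_left_cancel h)
    intro i hi
    rcases Nat.lt_succ_iff_lt_or_eq.1 hi with hi | rfl
    · exact ih h3 i hi
    · exact Fin.ext h4

/-- the probability that `n_j` is congruent to a given integer modulo `m_j` is at most `1 / m_j` -/
lemma prob_class (b : ℕ → ℕ) (j : ℕ) (k : ℤ) :
    law b {ω | (value b ω j : ℤ) ≡ k [ZMOD (modulus b j : ℤ)]} ≤ ENNReal.ofReal (1 / (modulus b j : ℝ)) := by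
  classical
  rcases Set.eq_empty_or_nonempty {ω : (∀ i, Fin (b i + 2)) | (value b ω j : ℤ) ≡ k [ZMOD (modulus b j : ℤ)]} with h0 | ⟨ω', hω'⟩
  · rw [h0, measure_empty]
    exact bot_le
  have hsub : {ω : (∀ i, Fin (b i + 2)) | (value b ω j : ℤ) ≡ k [ZMOD (modulus b j : ℤ)]} ⊆
      Set.pi ((range j : Finset ℕ) : Set ℕ) (fun i => {ω' i}) := by
    intro ω hω i hi
    rw [Finset.mem_coe, mem_range] at hi
    rw [Set.mem_singleton_iff]
    refine digits_eq b ω ω' j ?_ i hi
    have h1 : (value b ω j : ℤ) ≡ value b ω' j [ZMOD (modulus b j : ℤ)] := Int.ModEq.trans hω (Int.ModEq.symm hω')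
    have h2 : value b ω j ≡ value b ω' j [MOD modulus b j] := (Int.natCast_modEq_iff).1 h1
    exact Nat.ModEq.eq_of_lt_of_lt h2 (value_lt b ω j) (value_lt b ω' j)
  refine (measure_mono hsub).trans ?_
  rw [law, Measure.infinitePi_pi _ (fun i _ => measurableSet_singleton _)]
  have h1 : ∀ i ∈ range j, (PMF.uniformOfFintype (Fin (b i + 2))).toMeasure {ω' i} =
      ENNReal.ofReal (1 / ((b i + 2 : ℕ) : ℝ)) := by
    intro i _
    rw [PMF.toMeasure_apply_singleton _ _ (measurableSet_singleton _), PMF.uniformOfFintype_apply, Fintype.card_fin,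
      one_div, ENNReal.ofReal_inv_of_pos (by positivity), ENNReal.ofReal_natCast]
  rw [prod_congr rfl h1, ← ENNReal.ofReal_prod_of_nonneg (fun i _ => by positivity)]
  apply le_of_eq
  congr 1
  rw [modulus, Finset.prod_div_distrib, prod_const_one]
  push_cast
  rfl

/-- **Classes of random integers.** Let a set of integers have, for every `P`, at most `X / (log X) ^ P` members of absolute value
at most `X`, for large `X`. Almost surely, for all large `j`, no `k` with `|k| ≤ m_j (log m_j) ^ B` and `k ≡ n_j (mod m_j)` is in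
the set. -/
theorem ae_classes (b : ℕ → ℕ) (Bad : ℤ → Prop)
    (hbad : ∀ P : ℕ, ∃ X₀ : ℕ, ∀ X : ℕ, X₀ ≤ X → ({k : ℤ | |k| ≤ (X : ℤ) ∧ Bad k}.ncard : ℝ) ≤ X / Real.log X ^ P)
    (B : ℕ) :
    ∀ᵐ ω ∂(law b), ∃ j₀ : ℕ, ∀ j : ℕ, j₀ ≤ j → ∀ k : ℤ, |(k : ℝ)| ≤ modulus b j * Real.log (modulus b j) ^ B →
      (value b ω j : ℤ) ≡ k [ZMOD (modulus b j : ℤ)] → ¬ Bad k := by
  classical
  obtain ⟨X₀, hX₀⟩ := hbad (B + 2)
  have hlog2 : 0 < Real.log 2 := Real.log_pos (by norm_num)
  -- from this index on the logarithms of the moduli are at least one, and the moduli at least `X₀`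
  obtain ⟨j₁, hj₁⟩ : ∃ j₁ : ℕ, 1 / Real.log 2 ≤ j₁ ∧ X₀ ≤ j₁ := by
    obtain ⟨n, hn⟩ := exists_nat_ge (1 / Real.log 2)
    exact ⟨max n X₀, hn.trans (by exact_mod_cast le_max_left _ _), le_max_right _ _⟩
  have hlogm : ∀ j : ℕ, (j : ℝ) * Real.log 2 ≤ Real.log (modulus b j) := by
    intro j
    have h1 : (2 : ℝ) ^ j ≤ modulus b j := by exact_mod_cast two_pow_le b j
    calc (j : ℝ) * Real.log 2 = Real.log (2 ^ j) := by rw [Real.log_pow]
      _ ≤ _ := Real.log_le_log (by positivity) h1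
  set A : ℕ → Set (∀ i, Fin (b i + 2)) := fun j => {ω | j₁ ≤ j ∧ ∃ k : ℤ,
    |(k : ℝ)| ≤ modulus b j * Real.log (modulus b j) ^ B ∧ (value b ω j : ℤ) ≡ k [ZMOD (modulus b j : ℤ)] ∧ Bad k} with hA
  have hsum : ∑' j, law b (A j) ≠ ⊤ := by
    have hs : Summable (fun j : ℕ => 1 / (Real.log 2) ^ 2 * (1 / (j : ℝ) ^ 2)) :=
      (Real.summable_one_div_nat_pow.2 (by norm_num)).mul_left _
    refine ne_top_of_le_ne_top hs.tsum_ofReal_ne_top (ENNReal.tsum_le_tsum fun j => ?_)
    by_cases hj : j₁ ≤ j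
    swap
    · have : A j = ∅ := by
        ext ω
        simp [hA, hj]
      rw [this, measure_empty]
      exact bot_le
    have hj1 : (j₁ : ℝ) ≤ j := by exact_mod_cast hj
    have hj0 : (0 : ℝ) < j := lt_of_lt_of_le (by positivity) (hj₁.1.trans hj1)
    set m : ℝ := (modulus b j : ℝ) with hm
    have hm0 : 0 < m := by
      rw [hm]
      exact_mod_cast modulus_pos b j
    have hL1 : 1 ≤ Real.log m := by
      refine le_trans ?_ (hlogm j)
      have := (div_le_iff₀ hlog2).1 (hj₁.1.trans hj1)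
      linarith
    set N : ℕ := ⌊m * Real.log m ^ B⌋₊ with hN
    have hNle : (N : ℝ) ≤ m * Real.log m ^ B := Nat.floor_le (by positivity)
    have hNm : modulus b j ≤ N := by
      apply Nat.le_floor
      have : 1 ≤ Real.log m ^ B := one_le_pow₀ hL1
      nlinarith
    have hNm' : m ≤ N := by
      rw [hm]
      exact_mod_cast hNm
    have hNX : X₀ ≤ N := by
      have h1 : j < 2 ^ j := Nat.lt_two_pow_self
      have h2 := two_pow_le b j
      omega
    have hfin : {k : ℤ | |k| ≤ (N : ℤ) ∧ Bad k}.Finite := (Set.finite_Icc (-(N : ℤ)) N).subset fun k hk => abs_le.1 hk.1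
    have hsub : A j ⊆ ⋃ k ∈ hfin.toFinset, {ω | (value b ω j : ℤ) ≡ k [ZMOD (modulus b j : ℤ)]} := by
      rintro ω ⟨-, k, h1, h2, h3⟩
      simp only [Set.mem_iUnion]
      refine ⟨k, ?_, h2⟩
      rw [Set.Finite.mem_toFinset]
      refine ⟨?_, h3⟩
      have h4 : k.natAbs ≤ N := by
        apply Nat.le_floor
        rw [Nat.cast_natAbs, Int.cast_abs]
        exact h1
      rw [Int.abs_eq_natAbs]
      exact_mod_cast h4
    have hcard : (hfin.toFinset.card : ℝ) ≤ N / Real.log N ^ (B + 2) := by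
      rw [← Set.ncard_eq_toFinset_card _ hfin]
      exact hX₀ N hNX
    have hlogN : Real.log m ≤ Real.log N := Real.log_le_log hm0 hNm'
    have hL0 : 0 < Real.log m := by linarith
    have hfinal : (hfin.toFinset.card : ℝ) * (1 / m) ≤ 1 / (Real.log 2) ^ 2 * (1 / (j : ℝ) ^ 2) := by
      have h1 : (hfin.toFinset.card : ℝ) ≤ m * Real.log m ^ B / Real.log m ^ (B + 2) := by
        refine hcard.trans ?_
        apply div_le_div₀ (by positivity) hNle (by positivity)
        exact pow_le_pow_left₀ hL0.le hlogN _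
      have h2 : m * Real.log m ^ B / Real.log m ^ (B + 2) = m * (1 / Real.log m ^ 2) := by
        rw [pow_add]
        field_simp
      rw [h2] at h1
      calc (hfin.toFinset.card : ℝ) * (1 / m) ≤ m * (1 / Real.log m ^ 2) * (1 / m) :=
            mul_le_mul_of_nonneg_right h1 (by positivity)
        _ = 1 / Real.log m ^ 2 := by
            field_simp
        _ ≤ 1 / ((j : ℝ) * Real.log 2) ^ 2 := by
            apply one_div_le_one_div_of_le (by positivity)
            exact pow_le_pow_left₀ (by positivity) (hlogm j) 2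
        _ = _ := by
            rw [mul_pow]
            field_simp
    calc law b (A j) ≤ law b (⋃ k ∈ hfin.toFinset, {ω | (value b ω j : ℤ) ≡ k [ZMOD (modulus b j : ℤ)]}) :=
          measure_mono hsub
      _ ≤ ∑ k ∈ hfin.toFinset, law b {ω | (value b ω j : ℤ) ≡ k [ZMOD (modulus b j : ℤ)]} :=
          measure_biUnion_finset_le _ _
      _ ≤ ∑ _k ∈ hfin.toFinset, ENNReal.ofReal (1 / m) := sum_le_sum fun k _ => prob_class b j k
      _ = ENNReal.ofReal ((hfin.toFinset.card : ℝ) * (1 / m)) := by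
          rw [sum_const, nsmul_eq_mul, ENNReal.ofReal_mul (Nat.cast_nonneg _), ENNReal.ofReal_natCast]
      _ ≤ _ := ENNReal.ofReal_le_ofReal hfinal
  filter_upwards [ae_eventually_notMem hsum] with ω hω
  obtain ⟨j₀, hj₀⟩ := eventually_atTop.1 hω
  refine ⟨max j₀ j₁, fun j hj k hk1 hk2 hk3 => ?_⟩
  exact hj₀ j ((le_max_left _ _).trans hj) ⟨(le_max_right _ _).trans hj, k, hk1, hk2, hk3⟩

/-- `k` is congruent to `n_j` modulo `m_j`, and `|k| ≤ m_j (log m_j) ^ B` (there are about `2 (log m_j) ^ B` such `k`). -/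
def InClass (b : ℕ → ℕ) (ω : ∀ i, Fin (b i + 2)) (B j : ℕ) (k : ℤ) : Prop :=
  |(k : ℝ)| ≤ modulus b j * Real.log (modulus b j) ^ B ∧ (value b ω j : ℤ) ≡ k [ZMOD (modulus b j : ℤ)]

/-- countably many properties at once -/
theorem ae_family {ι : Type*} [Countable ι] (b : ℕ → ℕ) (P : ι → ℤ → Prop)
    (hP : ∀ i, ∀ U : ℕ, ∃ X₀ : ℕ, ∀ X : ℕ, X₀ ≤ X →
      ({k : ℤ | |k| ≤ (X : ℤ) ∧ ¬ P i k}.ncard : ℝ) ≤ X / Real.log X ^ U) :
    ∀ᵐ ω ∂(law b), ∀ i, ∀ B : ℕ, ∃ j₀ : ℕ, ∀ j : ℕ, j₀ ≤ j → ∀ k : ℤ, InClass b ω B j k → P i k := by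
  rw [ae_all_iff]
  intro i
  rw [ae_all_iff]
  intro B
  filter_upwards [ae_classes b (fun k => ¬ P i k) (hP i) B] with ω hω
  obtain ⟨j₀, hj₀⟩ := hω
  exact ⟨j₀, fun j hj k hk => not_not.1 (hj₀ j hj k hk.1 hk.2)⟩

lemma modulus_const (q : ℕ) (hq : 2 ≤ q) (j : ℕ) : modulus (fun _ => q - 2) j = q ^ j := by
  have h : q - 2 + 2 = q := by omega
  simp only [modulus, h, prod_const, card_range]

lemma modulus_id (j : ℕ) : modulus (fun i => i) j = (j + 1).factorial := by
  induction j with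
  | zero => rfl
  | succ j ih =>
    rw [modulus_succ, ih, Nat.factorial_succ (j + 1)]
    ring

end Pool.Agent.V11312.PD
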