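import Pool.Agent.H107.MetricFam

/-! Sparse sets of natural numbers and of integers in residue classes modulo powers of several primes: for almost every point
`α` of the product of the rings `ℤ_(q l)`, `l < r`, and all large `T` no integer `t` of the sets, `|t| ≤ T`, satisfies
`|t - α_l|_(q l) ≤ T ^ (-σ)` for all `l`. Countably many sets are treated at once. (After helper223's `H223.PS.Engine`,
the case of one prime.) -/

set_option autoImplicit false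

open MeasureTheory Filter Topology

namespace Pool.Agent.V11312.PW

/-- `|t| ≤ T`, and `|t - α_l| ≤ T ^ (-σ)` in `ℤ_(q l)` for all `l < r`: the integer `t` belongs to the residue class of the
`q_l`-adic integer `α_l` modulo the least power of `q_l` which is at least `T ^ σ`. -/
def Near {r : ℕ} (q : Fin r → ℕ) [∀ l, Fact (q l).Prime] (σ T : ℝ) (α : ∀ l, ℤ_[q l]) (t : ℤ) : Prop :=
  |(t : ℝ)| ≤ T ∧ ∀ l, ‖(t : ℤ_[q l]) - α l‖ ≤ T ^ (-σ)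

/-- the general form, for a family of objects with integers attached to them -/
theorem classes {P ι : Type*} [Countable ι] (z : P → ℤ) (S : ι → Set P) {s : ℝ} (hs : 0 ≤ s)
    (hfin : ∀ i, ∀ X : ℝ, {t : P | t ∈ S i ∧ |(z t : ℝ)| ≤ X}.Finite)
    (hS : ∀ i, ∀ ε : ℝ, 0 < ε → ∃ M : ℝ, ∀ X : ℝ, 1 ≤ X →
      ({t : P | t ∈ S i ∧ |(z t : ℝ)| ≤ X}.ncard : ℝ) ≤ M * X ^ (s + ε))
    {r : ℕ} (q : Fin r → ℕ) [∀ l, Fact (q l).Prime] {σ : ℝ} (hσ : 0 < σ) :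
    ∃ E : Set (∀ l, ℤ_[q l]), dimH E ≤ ENNReal.ofReal (s / σ) ∧ ∀ α ∉ E, ∀ i, ∃ T₀ : ℝ, ∀ T ≥ T₀, ∀ t : P,
      Near q σ T α (z t) → t ∉ S i := by
  classical
  set ψ : ℤ → (∀ l, ℤ_[q l]) := fun t l => (t : ℤ_[q l]) with hψ
  set φ : P → (∀ l, ℤ_[q l]) := fun t => ψ (z t) with hφ
  set ht : P → ℝ := fun t => max 1 |(z t : ℝ)| with hht
  obtain ⟨E, hE1, hE2⟩ := Pool.Agent.H107.ME.dim_family φ ht (fun t => le_max_left _ _) hs hσ S (fun j ε hε => by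
      obtain ⟨C, hC⟩ := hS j ε hε
      refine ⟨C, fun X hX => ?_⟩
      have hsub : {t | t ∈ S j ∧ ht t ≤ X} ⊆ {t : P | t ∈ S j ∧ |(z t : ℝ)| ≤ X} := by
        rintro t ⟨a, b⟩
        exact ⟨a, (le_max_right _ _).trans b⟩
      refine ⟨(hfin j X).subset hsub, ?_⟩
      have h1 : ({t | t ∈ S j ∧ ht t ≤ X}.ncard : ℝ) ≤ ({t : P | t ∈ S j ∧ |(z t : ℝ)| ≤ X}.ncard : ℝ) := by
        exact_mod_cast Set.ncard_le_ncard hsub (hfin j X)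
      exact h1.trans (hC X hX))
  refine ⟨E ∪ Set.range ψ, ?_, fun α hα j => ?_⟩
  · rw [dimH_union, (Set.countable_range ψ).dimH_zero]
    exact max_le hE1 bot_le
  rw [Set.mem_union, not_or] at hα
  have hfin2 := hE2 α hα.1 j
  have hne : ∀ t ∈ {t | t ∈ S j ∧ dist (φ t) α ≤ (ht t) ^ (-σ)}, ∀ᶠ T : ℝ in atTop, T ^ (-σ) < dist (φ t) α := by
    intro t _
    have h1 : 0 < dist (φ t) α := dist_pos.2 fun h2 => hα.2 ⟨z t, h2⟩
    exact (tendsto_rpow_neg_atTop hσ).eventually (gt_mem_nhds h1)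
  obtain ⟨T₀, hT₀⟩ := eventually_atTop.1 ((Filter.eventually_all_finite hfin2).2 hne)
  refine ⟨max T₀ 1, fun T hT t ⟨htT, htα⟩ hexc => ?_⟩
  have hT1 : 1 ≤ T := (le_max_right _ _).trans hT
  have hT0 : 0 < T := by linarith
  have hdist : dist (φ t) α ≤ T ^ (-σ) := by
    rw [dist_pi_le_iff (Real.rpow_nonneg hT0.le _)]
    intro l
    rw [dist_eq_norm]
    exact htα l
  have hmem : t ∈ {t | t ∈ S j ∧ dist (φ t) α ≤ (ht t) ^ (-σ)} :=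
    ⟨hexc, hdist.trans (Real.rpow_le_rpow_of_nonpos (lt_of_lt_of_le one_pos (le_max_left _ _)) (max_le hT1 htT)
      (by linarith))⟩
  have h3 := hT₀ T ((le_max_left _ _).trans hT) t hmem
  linarith

lemma add_eps {f : ℝ → ℝ} {M s : ℝ} (h : ∀ X : ℝ, 1 ≤ X → f X ≤ M * X ^ s) {ε : ℝ} (hε : 0 < ε) :
    ∃ M' : ℝ, ∀ X : ℝ, 1 ≤ X → f X ≤ M' * X ^ (s + ε) := by
  refine ⟨|M|, fun X hX => (h X hX).trans ?_⟩
  calc M * X ^ s ≤ |M| * X ^ s := mul_le_mul_of_nonneg_right (le_abs_self M) (Real.rpow_nonneg (by linarith) _)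
    _ ≤ |M| * X ^ (s + ε) :=
      mul_le_mul_of_nonneg_left (Real.rpow_le_rpow_of_exponent_le hX (by linarith)) (abs_nonneg M)

/-- natural numbers -/
theorem nat_classes {ι : Type} [Countable ι] (S : ι → Set ℕ) {s : ℝ} (hs : 0 ≤ s)
    (hS : ∀ i, ∃ M : ℝ, ∀ X : ℝ, 1 ≤ X → ({t : ℕ | t ∈ S i ∧ (t : ℝ) ≤ X}.ncard : ℝ) ≤ M * X ^ s)
    {r : ℕ} (q : Fin r → ℕ) [∀ l, Fact (q l).Prime] {σ : ℝ} (hσ : 0 < σ) :
    ∃ E : Set (∀ l, ℤ_[q l]), dimH E ≤ ENNReal.ofReal (s / σ) ∧ ∀ α ∉ E, ∀ i, ∃ T₀ : ℝ, ∀ T ≥ T₀, ∀ t : ℕ,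
      Near q σ T α t → t ∉ S i := by
  have habs : ∀ t : ℕ, |(((t : ℤ)) : ℝ)| = (t : ℝ) := fun t => by
    rw [Int.cast_natCast, abs_of_nonneg (Nat.cast_nonneg t)]
  refine classes (fun t : ℕ => (t : ℤ)) S hs
    (fun i X => (Set.finite_Icc 0 ⌊X⌋₊).subset fun t ht => ⟨Nat.zero_le _, Nat.le_floor (by
      have := ht.2
      rwa [habs t] at this)⟩)
    (fun i ε hε => ?_) q hσ
  obtain ⟨M, hM⟩ := hS i
  refine add_eps (M := M) (fun X hX => ?_) hε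
  simp only [habs]
  exact hM X hX

/-- integers, counts with an `ε` -/
theorem int_classes' {ι : Type} [Countable ι] (S : ι → Set ℤ) {s : ℝ} (hs : 0 ≤ s)
    (hS : ∀ i, ∀ ε : ℝ, 0 < ε → ∃ M : ℝ, ∀ X : ℝ, 1 ≤ X →
      ({D : ℤ | D ∈ S i ∧ |(D : ℝ)| ≤ X}.ncard : ℝ) ≤ M * X ^ (s + ε))
    {r : ℕ} (q : Fin r → ℕ) [∀ l, Fact (q l).Prime] {σ : ℝ} (hσ : 0 < σ) :
    ∃ E : Set (∀ l, ℤ_[q l]), dimH E ≤ ENNReal.ofReal (s / σ) ∧ ∀ α ∉ E, ∀ i, ∃ T₀ : ℝ, ∀ T ≥ T₀, ∀ D : ℤ,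
      Near q σ T α D → D ∉ S i := by
  refine classes (fun t : ℤ => t) S hs (fun i X => ?_) (fun i ε hε => hS i ε hε) q hσ
  · have h : {k : ℤ | |(k : ℝ)| ≤ X}.Finite := by
      apply (Set.finite_Icc (-⌈X⌉) ⌈X⌉).subset
      intro k hk
      have h1 := abs_le.1 (show |(k : ℝ)| ≤ X from hk)
      have h2 := Int.le_ceil X
      constructor
      · have : -(⌈X⌉ : ℝ) ≤ k := by linarith
        exact_mod_cast this
      · have : (k : ℝ) ≤ ⌈X⌉ := by linarith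
        exact_mod_cast this
    exact h.subset fun D hD => hD.2

/-- integers -/
theorem int_classes {ι : Type} [Countable ι] (S : ι → Set ℤ) {s : ℝ} (hs : 0 ≤ s)
    (hS : ∀ i, ∃ M : ℝ, ∀ X : ℝ, 1 ≤ X → {D : ℤ | D ∈ S i ∧ |(D : ℝ)| ≤ X}.Finite ∧
      ({D : ℤ | D ∈ S i ∧ |(D : ℝ)| ≤ X}.ncard : ℝ) ≤ M * X ^ s)
    {r : ℕ} (q : Fin r → ℕ) [∀ l, Fact (q l).Prime] {σ : ℝ} (hσ : 0 < σ) :
    ∃ E : Set (∀ l, ℤ_[q l]), dimH E ≤ ENNReal.ofReal (s / σ) ∧ ∀ α ∉ E, ∀ i, ∃ T₀ : ℝ, ∀ T ≥ T₀, ∀ D : ℤ,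
      Near q σ T α D → D ∉ S i := by
  refine int_classes' S hs (fun i ε hε => ?_) q hσ
  obtain ⟨M, hM⟩ := hS i
  exact add_eps (M := M) (fun X hX => (hM X hX).2) hε

/-- Savings of powers, each with its own exponent: off sets of dimension less than `r` there are `σ`, `r σ < 1`. -/
theorem small {r : ℕ} (hr : 1 ≤ r) (q : Fin r → ℕ) [∀ l, Fact (q l).Prime] {J : Type*}
    (Q : J → ℝ → (∀ l, ℤ_[q l]) → Prop)
    (h : ∀ j, ∃ c : ℝ, 0 < c ∧ c ≤ 1 / 2 ∧ ∀ σ : ℝ, 0 < σ → ∃ E : Set (∀ l, ℤ_[q l]),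
      dimH E ≤ ENNReal.ofReal ((1 - c) / σ) ∧ ∀ α ∉ E, Q j σ α) :
    ∃ E : J → Set (∀ l, ℤ_[q l]), (∀ j, dimH (E j) < r) ∧ ∀ α : (∀ l, ℤ_[q l]), (∀ j, α ∉ E j) →
      ∀ j, ∃ σ : ℝ, 0 < σ ∧ r * σ < 1 ∧ Q j σ α := by
  have hr1 : (1 : ℝ) ≤ r := by exact_mod_cast hr
  choose c hc0 hc1 hE using h
  have hσ : ∀ j, 0 < (1 - c j / 2) / r := fun j => div_pos (by linarith [hc1 j]) (by linarith)
  choose E hE1 hE2 using fun j => hE j ((1 - c j / 2) / r) (hσ j)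
  refine ⟨E, fun j => (hE1 j).trans_lt ?_, fun α hα j => ⟨(1 - c j / 2) / r, hσ j, ?_, hE2 j α (hα j)⟩⟩
  · rw [← ENNReal.ofReal_natCast r, ENNReal.ofReal_lt_ofReal_iff (by linarith)]
    rw [div_lt_iff₀ (hσ j), mul_div_cancel₀ _ (by linarith)]
    linarith [hc0 j]
  · rw [mul_div_cancel₀ _ (by linarith : (r : ℝ) ≠ 0)]
    linarith [hc0 j]

end Pool.Agent.V11312.PW
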