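import Pool.Agent.V11312.PW.Classes

/-! Very sparse sets of natural numbers near all points of products of rings `ℤ_p` outside of sets of dimension zero. -/

set_option autoImplicit false

open MeasureTheory Filter Topology

namespace Pool.Agent.V11312.PW

/-- `|a - x_l| ≤ a ^ (-σ)` in `ℤ_(p l)` for all `l`: the positive integer `a` belongs to the residue class of `x_l` modulo the
least power of `p_l` which is at least `a ^ σ`. -/
def NearPoint {r : ℕ} (p : Fin r → ℕ) [∀ l, Fact (p l).Prime] (σ : ℝ) (x : ∀ l, ℤ_[p l]) (a : ℕ) : Prop :=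
  ∀ l, ‖(a : ℤ_[p l]) - x l‖ ≤ (a : ℝ) ^ (-σ)

/-- For every `q` sets `A q j`, the `j`-th with at most `C X ^ (1 / (j + 1))` members up to `X`: for all `x` outside a set of
dimension zero, all `q` and `σ > 0` there is `j` such that no large element of `A q j` is near `x`. -/
theorem zero_classes {Q : Type} [Countable Q] (A : Q → ℕ → Set ℕ)
    (hA : ∀ (q : Q) (j : ℕ), ∃ C : ℝ, ∀ X : ℝ, 1 ≤ X →
      ({t : ℕ | t ∈ A q j ∧ (t : ℝ) ≤ X}.ncard : ℝ) ≤ C * X ^ (1 / ((j : ℝ) + 1)))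
    {r : ℕ} (p : Fin r → ℕ) [∀ l, Fact (p l).Prime] :
    ∃ E : Set (∀ l, ℤ_[p l]), dimH E = 0 ∧ ∀ x ∉ E, ∀ q : Q, ∀ σ : ℝ, 0 < σ → ∃ j t₀ : ℕ, ∀ t : ℕ, t₀ ≤ t →
      NearPoint p σ x t → t ∉ A q j := by
  have hall : ∀ (q : Q) (i j : ℕ), ∃ E : Set (∀ l, ℤ_[p l]),
      dimH E ≤ ENNReal.ofReal (1 / ((j : ℝ) + 1) / (1 / ((i : ℝ) + 1))) ∧
      ∀ x ∉ E, ∀ _ : Unit, ∃ T₀ : ℝ, ∀ T ≥ T₀, ∀ t : ℕ, Near p (1 / ((i : ℝ) + 1)) T x t → t ∉ A q j := fun q i j =>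
    nat_classes (fun _ : Unit => A q j) (by positivity) (fun _ => hA q j) p (by positivity)
  choose E hE1 hE2 using hall
  refine ⟨⋃ q, ⋃ i, ⋂ j, E q i j, ?_, fun x hx q σ hσ => ?_⟩
  · rw [dimH_iUnion]
    refine le_antisymm (iSup_le fun q => ?_) bot_le
    rw [dimH_iUnion]
    refine iSup_le fun i => ?_
    have hlim : Tendsto (fun j : ℕ => ENNReal.ofReal (1 / ((j : ℝ) + 1) / (1 / ((i : ℝ) + 1)))) atTop
        (𝓝 (ENNReal.ofReal (0 / (1 / ((i : ℝ) + 1))))) :=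
      ENNReal.tendsto_ofReal (tendsto_one_div_add_atTop_nhds_zero_nat.div_const _)
    rw [zero_div, ENNReal.ofReal_zero] at hlim
    exact ge_of_tendsto' hlim fun j => (dimH_mono (Set.iInter_subset _ j)).trans (hE1 q i j)
  · obtain ⟨i, hi⟩ := exists_nat_ge (1 / σ)
    have hiσ : 1 / ((i : ℝ) + 1) ≤ σ := by
      rw [div_le_iff₀ (by positivity)]
      rw [div_le_iff₀ hσ] at hi
      nlinarith
    have hxm : x ∉ ⋂ j, E q i j := fun g => hx (Set.mem_iUnion.2 ⟨q, Set.mem_iUnion.2 ⟨i, g⟩⟩)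
    rw [Set.mem_iInter] at hxm
    push Not at hxm
    obtain ⟨j, hj⟩ := hxm
    obtain ⟨T₀, hT₀⟩ := hE2 q i j x hj ()
    refine ⟨j, max ⌈T₀⌉₊ 1, fun t ht hnear => ?_⟩
    have ht1 : 1 ≤ t := (le_max_right _ _).trans ht
    have ht1' : (1 : ℝ) ≤ t := by exact_mod_cast ht1
    refine hT₀ t ((Nat.le_ceil T₀).trans (by exact_mod_cast (le_max_left _ _).trans ht)) t ⟨?_, fun l => ?_⟩
    · rw [Int.cast_natCast, abs_of_nonneg (Nat.cast_nonneg t)]
    · have h1 := (hnear l).trans (Real.rpow_le_rpow_of_exponent_le ht1' (neg_le_neg hiσ))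
      rwa [Int.cast_natCast]

end Pool.Agent.V11312.PW
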