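import Pool.Agent.V11312.PW.Digits

/-! Random integer vectors with independent uniform digits: sets of vectors which are thinner than any power of the logarithm. -/

set_option autoImplicit false

open Finset Filter Topology MeasureTheory

namespace Pool.Agent.V11312.PD

instance law_prob (b : ℕ → ℕ) : IsProbabilityMeasure (law b) := by
  unfold law
  infer_instance

lemma prob_class_vec (b : ℕ → ℕ) {s : ℕ} (j : ℕ) (k : Fin s → ℤ) :
    (Measure.pi fun _ : Fin s => law b) {ω | ∀ i, (value b (ω i) j : ℤ) ≡ k i [ZMOD (modulus b j : ℤ)]} ≤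
      ENNReal.ofReal ((1 / (modulus b j : ℝ)) ^ s) := by
  have h : {ω : Fin s → (∀ i, Fin (b i + 2)) | ∀ i, (value b (ω i) j : ℤ) ≡ k i [ZMOD (modulus b j : ℤ)]} =
      Set.pi Set.univ (fun i => {w : (∀ i, Fin (b i + 2)) | (value b w j : ℤ) ≡ k i [ZMOD (modulus b j : ℤ)]}) := by
    ext ω
    simp
  rw [h, Measure.pi_pi]
  calc ∏ i, law b {w : (∀ i, Fin (b i + 2)) | (value b w j : ℤ) ≡ k i [ZMOD (modulus b j : ℤ)]}
      ≤ ∏ _i : Fin s, ENNReal.ofReal (1 / (modulus b j : ℝ)) := prod_le_prod' fun i _ => prob_class b j (k i)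
    _ = ENNReal.ofReal ((1 / (modulus b j : ℝ)) ^ s) := by
      rw [prod_const, card_univ, Fintype.card_fin, ENNReal.ofReal_pow (by positivity)]

/-- **Classes of random integer vectors.** Let a set of integer vectors of length `s` have, for every `P`, at most
`X ^ s / (log X) ^ P` members in the box of size `X`, for large `X`. Almost surely, for all large `j`, no `k` with
`|k_i| ≤ m_j (log m_j) ^ B` and `k_i ≡ n_(i,j) (mod m_j)` for all `i` is in the set. -/
theorem ae_classes_vec (b : ℕ → ℕ) {s : ℕ} (Bad : (Fin s → ℤ) → Prop)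
    (hbad : ∀ P : ℕ, ∃ X₀ : ℕ, ∀ X : ℕ, X₀ ≤ X →
      ({k : Fin s → ℤ | (∀ i, |k i| ≤ (X : ℤ)) ∧ Bad k}.ncard : ℝ) ≤ (X : ℝ) ^ s / Real.log X ^ P)
    (B : ℕ) :
    ∀ᵐ ω ∂(Measure.pi fun _ : Fin s => law b), ∃ j₀ : ℕ, ∀ j : ℕ, j₀ ≤ j → ∀ k : Fin s → ℤ,
      (∀ i, InClass b (ω i) B j (k i)) → ¬ Bad k := by
  classical
  obtain ⟨X₀, hX₀⟩ := hbad (s * B + 2)
  have hlog2 : 0 < Real.log 2 := Real.log_pos (by norm_num)
  obtain ⟨j₁, hj₁⟩ : ∃ j₁ : ℕ, 1 / Real.log 2 ≤ j₁ ∧ X₀ ≤ j₁ := by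
    obtain ⟨n, hn⟩ := exists_nat_ge (1 / Real.log 2)
    exact ⟨max n X₀, hn.trans (by exact_mod_cast le_max_left _ _), le_max_right _ _⟩
  have hlogm : ∀ j : ℕ, (j : ℝ) * Real.log 2 ≤ Real.log (modulus b j) := by
    intro j
    have h1 : (2 : ℝ) ^ j ≤ modulus b j := by exact_mod_cast two_pow_le b j
    calc (j : ℝ) * Real.log 2 = Real.log (2 ^ j) := by rw [Real.log_pow]
      _ ≤ _ := Real.log_le_log (by positivity) h1
  set μ : Measure (Fin s → (∀ i, Fin (b i + 2))) := Measure.pi fun _ : Fin s => law b with hμ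
  set A : ℕ → Set (Fin s → (∀ i, Fin (b i + 2))) := fun j => {ω | j₁ ≤ j ∧ ∃ k : Fin s → ℤ,
    (∀ i, InClass b (ω i) B j (k i)) ∧ Bad k} with hA
  have hsum : ∑' j, μ (A j) ≠ ⊤ := by
    have hs : Summable (fun j : ℕ => 1 / (Real.log 2) ^ 2 * (1 / (j : ℝ) ^ 2)) :=
      (Real.summable_one_div_nat_pow.2 (by norm_num)).mul_left _
    refine ne_top_of_le_ne_top hs.tsum_ofReal_ne_top (ENNReal.tsum_le_tsum fun j => ?_)
    by_cases hj : j₁ ≤ j
    swap
    · have : A j = ∅ := by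
        ext ω
        simp [hA, hj]
      rw [this, measure_empty]
      exact bot_le
    have hj1 : (j₁ : ℝ) ≤ j := by exact_mod_cast hj
    have hj0 : (0 : ℝ) < j := lt_of_lt_of_le (by positivity) (hj₁.1.trans hj1)
    set m : ℝ := (modulus b j : ℝ) with hm
    have hm0 : 0 < m := by
      rw [hm]
      exact_mod_cast modulus_pos b j
    have hL1 : 1 ≤ Real.log m := by
      refine le_trans ?_ (hlogm j)
      have := (div_le_iff₀ hlog2).1 (hj₁.1.trans hj1)
      linarith
    set N : ℕ := ⌊m * Real.log m ^ B⌋₊ with hN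
    have hNle : (N : ℝ) ≤ m * Real.log m ^ B := Nat.floor_le (by positivity)
    have hNm : modulus b j ≤ N := by
      apply Nat.le_floor
      have : 1 ≤ Real.log m ^ B := one_le_pow₀ hL1
      nlinarith
    have hNm' : m ≤ N := by
      rw [hm]
      exact_mod_cast hNm
    have hNX : X₀ ≤ N := by
      have h1 : j < 2 ^ j := Nat.lt_two_pow_self
      have h2 := two_pow_le b j
      omega
    have hfin : {k : Fin s → ℤ | (∀ i, |k i| ≤ (N : ℤ)) ∧ Bad k}.Finite := by
      refine (Set.Finite.pi' fun _ : Fin s => Set.finite_Icc (-(N : ℤ)) N).subset ?_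
      rintro k ⟨hk, -⟩ i
      exact abs_le.1 (hk i)
    have hsub : A j ⊆ ⋃ k ∈ hfin.toFinset, {ω | ∀ i, (value b (ω i) j : ℤ) ≡ k i [ZMOD (modulus b j : ℤ)]} := by
      rintro ω ⟨-, k, h1, h3⟩
      simp only [Set.mem_iUnion]
      refine ⟨k, ?_, fun i => (h1 i).2⟩
      rw [Set.Finite.mem_toFinset]
      refine ⟨fun i => ?_, h3⟩
      have h4 : (k i).natAbs ≤ N := by
        apply Nat.le_floor
        rw [Nat.cast_natAbs, Int.cast_abs]
        exact (h1 i).1
      rw [Int.abs_eq_natAbs]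
      exact_mod_cast h4
    have hcard : (hfin.toFinset.card : ℝ) ≤ (N : ℝ) ^ s / Real.log N ^ (s * B + 2) := by
      rw [← Set.ncard_eq_toFinset_card _ hfin]
      exact hX₀ N hNX
    have hlogN : Real.log m ≤ Real.log N := Real.log_le_log hm0 hNm'
    have hL0 : 0 < Real.log m := by linarith
    have hfinal : (hfin.toFinset.card : ℝ) * (1 / m) ^ s ≤ 1 / (Real.log 2) ^ 2 * (1 / (j : ℝ) ^ 2) := by
      have h1 : (hfin.toFinset.card : ℝ) ≤ (m * Real.log m ^ B) ^ s / Real.log m ^ (s * B + 2) := by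
        refine hcard.trans ?_
        apply div_le_div₀ (by positivity) (pow_le_pow_left₀ (Nat.cast_nonneg _) hNle _) (by positivity)
        exact pow_le_pow_left₀ hL0.le hlogN _
      have h2 : (m * Real.log m ^ B) ^ s / Real.log m ^ (s * B + 2) = m ^ s * (1 / Real.log m ^ 2) := by
        rw [mul_pow, ← pow_mul, mul_comm B s, pow_add]
        field_simp
      rw [h2] at h1
      calc (hfin.toFinset.card : ℝ) * (1 / m) ^ s ≤ m ^ s * (1 / Real.log m ^ 2) * (1 / m) ^ s :=
            mul_le_mul_of_nonneg_right h1 (by positivity)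
        _ = 1 / Real.log m ^ 2 := by
            rw [one_div_pow]
            field_simp
        _ ≤ 1 / ((j : ℝ) * Real.log 2) ^ 2 := by
            apply one_div_le_one_div_of_le (by positivity)
            exact pow_le_pow_left₀ (by positivity) (hlogm j) 2
        _ = _ := by
            rw [mul_pow]
            field_simp
    calc μ (A j) ≤ μ (⋃ k ∈ hfin.toFinset, {ω | ∀ i, (value b (ω i) j : ℤ) ≡ k i [ZMOD (modulus b j : ℤ)]}) :=
          measure_mono hsub
      _ ≤ ∑ k ∈ hfin.toFinset, μ {ω | ∀ i, (value b (ω i) j : ℤ) ≡ k i [ZMOD (modulus b j : ℤ)]} :=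
          measure_biUnion_finset_le _ _
      _ ≤ ∑ _k ∈ hfin.toFinset, ENNReal.ofReal ((1 / m) ^ s) := sum_le_sum fun k _ => prob_class_vec b j k
      _ = ENNReal.ofReal ((hfin.toFinset.card : ℝ) * (1 / m) ^ s) := by
          rw [sum_const, nsmul_eq_mul, ENNReal.ofReal_mul (Nat.cast_nonneg _), ENNReal.ofReal_natCast]
      _ ≤ _ := ENNReal.ofReal_le_ofReal hfinal
  filter_upwards [ae_eventually_notMem hsum] with ω hω
  obtain ⟨j₀, hj₀⟩ := eventually_atTop.1 hω
  refine ⟨max j₀ j₁, fun j hj k hk1 hk3 => ?_⟩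
  exact hj₀ j ((le_max_left _ _).trans hj) ⟨(le_max_right _ _).trans hj, k, hk1, hk3⟩

end Pool.Agent.V11312.PD
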