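import Mathlib

/-! From sets of positive integers (triples of positive integers) to sets of nonzero integers (triples), both signs allowed. -/

set_option autoImplicit false

open Finset Filter Topology

namespace Pool.Agent.V11312.PD

lemma log_big {c : ℝ} : ∃ X₁ : ℕ, 1 ≤ X₁ ∧ ∀ X : ℕ, X₁ ≤ X → c ≤ Real.log X := by
  obtain ⟨n, hn⟩ := exists_nat_ge (Real.exp c)
  refine ⟨max n 1, le_max_right _ _, fun X hX => ?_⟩
  have h1 : Real.exp c ≤ X := hn.trans (by exact_mod_cast (le_max_left _ _).trans hX)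
  have h2 : 0 < (X : ℝ) := lt_of_lt_of_le (Real.exp_pos c) h1
  rwa [Real.le_log_iff_exp_le h2]

lemma absorb {c x L A : ℝ} {U : ℕ} (hL : c ≤ L) (hc : 0 < c) (hA : 0 ≤ A) (h : x ≤ A / L ^ (U + 1)) :
    c * x ≤ A / L ^ U := by
  have hL0 : 0 < L := lt_of_lt_of_le hc hL
  calc c * x ≤ c * (A / L ^ (U + 1)) := mul_le_mul_of_nonneg_left h hc.le
    _ ≤ L * (A / L ^ (U + 1)) := mul_le_mul_of_nonneg_right hL (by positivity)
    _ = A / L ^ U := by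
        rw [pow_succ]
        field_simp

/-- integers of both signs -/
lemma both_signs (S : ℕ → Prop)
    (hS : ∀ P : ℕ, ∃ X₀ : ℕ, ∀ X : ℕ, X₀ ≤ X → ({N : ℕ | 1 ≤ N ∧ N ≤ X ∧ S N}.ncard : ℝ) ≤ X / Real.log X ^ P)
    (Q : ℤ → Prop) (hQ : ∀ k : ℤ, ¬ Q k → k ≠ 0 ∧ S k.natAbs) (U : ℕ) :
    ∃ X₀ : ℕ, ∀ X : ℕ, X₀ ≤ X → ({k : ℤ | |k| ≤ (X : ℤ) ∧ ¬ Q k}.ncard : ℝ) ≤ X / Real.log X ^ U := by
  classical
  obtain ⟨X₀, hX₀⟩ := hS (U + 1)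
  obtain ⟨X₁, -, hX₁⟩ := log_big (c := 2)
  refine ⟨max X₀ X₁, fun X hX => ?_⟩
  have h1 := hX₀ X ((le_max_left _ _).trans hX)
  refine le_trans ?_ (absorb (hX₁ X ((le_max_right _ _).trans hX)) (by norm_num) (Nat.cast_nonneg X) h1)
  set T : Set ℕ := {N : ℕ | 1 ≤ N ∧ N ≤ X ∧ S N} with hT
  have hTf : T.Finite := (Set.finite_Icc 1 X).subset fun N hN => ⟨hN.1, hN.2.1⟩
  have h2 : {k : ℤ | |k| ≤ (X : ℤ) ∧ ¬ Q k}.ncard ≤ ((Set.univ : Set Bool) ×ˢ T).ncard := by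
    refine Set.ncard_le_ncard_of_injOn (fun k : ℤ => (decide (k < 0), k.natAbs)) ?_ ?_ (Set.finite_univ.prod hTf)
    · rintro k ⟨hk1, hk2⟩
      obtain ⟨h3, h4⟩ := hQ k hk2
      refine ⟨Set.mem_univ _, Int.natAbs_pos.2 h3, ?_, h4⟩
      rw [Int.abs_eq_natAbs] at hk1
      exact_mod_cast hk1
    · rintro k - l - hkl
      simp only [Prod.mk.injEq, decide_eq_decide] at hkl
      omega
  rw [Set.ncard_prod, Set.ncard_univ] at h2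
  have h3 : ({k : ℤ | |k| ≤ (X : ℤ) ∧ ¬ Q k}.ncard : ℝ) ≤ ((Nat.card Bool * T.ncard : ℕ) : ℝ) := by exact_mod_cast h2
  simpa using h3

/-- triples of integers, all signs -/
lemma all_signs (S : ℕ × ℕ × ℕ → Prop)
    (hS : ∀ P : ℕ, ∃ X₀ : ℕ, ∀ X : ℕ, X₀ ≤ X →
      ({N : ℕ × ℕ × ℕ | (1 ≤ N.1 ∧ N.1 ≤ X) ∧ (1 ≤ N.2.1 ∧ N.2.1 ≤ X) ∧ (1 ≤ N.2.2 ∧ N.2.2 ≤ X) ∧ S N}.ncard : ℝ) ≤
        (X : ℝ) ^ 3 / Real.log X ^ P)
    (Q : (Fin 3 → ℤ) → Prop)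
    (hQ : ∀ k : Fin 3 → ℤ, ¬ Q k → (∀ i, k i ≠ 0) ∧ S ((k 0).natAbs, (k 1).natAbs, (k 2).natAbs)) (U : ℕ) :
    ∃ X₀ : ℕ, ∀ X : ℕ, X₀ ≤ X → ({k : Fin 3 → ℤ | (∀ i, |k i| ≤ (X : ℤ)) ∧ ¬ Q k}.ncard : ℝ) ≤
      (X : ℝ) ^ 3 / Real.log X ^ U := by
  classical
  obtain ⟨X₀, hX₀⟩ := hS (U + 1)
  obtain ⟨X₁, -, hX₁⟩ := log_big (c := 8)
  refine ⟨max X₀ X₁, fun X hX => ?_⟩
  have h1 := hX₀ X ((le_max_left _ _).trans hX)
  refine le_trans ?_ (absorb (hX₁ X ((le_max_right _ _).trans hX)) (by norm_num) (by positivity) h1)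
  set T : Set (ℕ × ℕ × ℕ) :=
    {N : ℕ × ℕ × ℕ | (1 ≤ N.1 ∧ N.1 ≤ X) ∧ (1 ≤ N.2.1 ∧ N.2.1 ≤ X) ∧ (1 ≤ N.2.2 ∧ N.2.2 ≤ X) ∧ S N} with hT
  have hTf : T.Finite := by
    refine ((Set.finite_Icc 1 X).prod ((Set.finite_Icc 1 X).prod (Set.finite_Icc 1 X))).subset ?_
    rintro N ⟨a, b, c, -⟩
    exact ⟨a, b, c⟩
  have h2 : {k : Fin 3 → ℤ | (∀ i, |k i| ≤ (X : ℤ)) ∧ ¬ Q k}.ncard ≤
      ((Set.univ : Set (Fin 3 → Bool)) ×ˢ T).ncard := by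
    refine Set.ncard_le_ncard_of_injOn
      (fun k : Fin 3 → ℤ => ((fun i => decide (k i < 0)), ((k 0).natAbs, (k 1).natAbs, (k 2).natAbs))) ?_ ?_
      (Set.finite_univ.prod hTf)
    · rintro k ⟨hk1, hk2⟩
      obtain ⟨h3, h4⟩ := hQ k hk2
      have h5 : ∀ i, 1 ≤ (k i).natAbs ∧ (k i).natAbs ≤ X := by
        intro i
        have h6 := hk1 i
        rw [Int.abs_eq_natAbs] at h6
        exact ⟨Int.natAbs_pos.2 (h3 i), by exact_mod_cast h6⟩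
      exact ⟨Set.mem_univ _, h5 0, h5 1, h5 2, h4⟩
    · rintro k - l - hkl
      simp only [Prod.mk.injEq] at hkl
      obtain ⟨e, e0, e1, e2⟩ := hkl
      have e' : ∀ i, (k i < 0 ↔ l i < 0) := by
        intro i
        have := congrFun e i
        simpa only [decide_eq_decide] using this
      have f0 := e' 0
      have f1 := e' 1
      have f2 := e' 2
      funext i
      fin_cases i
      · show k 0 = l 0
        omega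
      · show k 1 = l 1
        omega
      · show k 2 = l 2
        omega
  rw [Set.ncard_prod, Set.ncard_univ] at h2
  have h3 : ({k : Fin 3 → ℤ | (∀ i, |k i| ≤ (X : ℤ)) ∧ ¬ Q k}.ncard : ℝ) ≤
      ((Nat.card (Fin 3 → Bool) * T.ncard : ℕ) : ℝ) := by exact_mod_cast h2
  have h4 : Nat.card (Fin 3 → Bool) = 8 := by simp
  rw [h4] at h3
  push_cast at h3
  exact h3

end Pool.Agent.V11312.PD
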