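import Pool.Agent.V11312.PW.Classes

/-! Sparse sets of integer vectors in residue classes modulo powers of several primes. -/

set_option autoImplicit false

open MeasureTheory Filter Topology

namespace Pool.Agent.V11312.PW

/-- For all coordinates `i`: `|t_i| ≤ T`, and `|t_i - α_(l,i)| ≤ T ^ (-σ)` in `ℤ_(q l)` for all `l < r`: the integer vector
`t` belongs to the residue class of `α_l` modulo the least power of `q_l` which is at least `T ^ σ`. -/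
def NearV {r : ℕ} {K : Type} (q : Fin r → ℕ) [∀ l, Fact (q l).Prime] (σ T : ℝ) (α : ∀ l, K → ℤ_[q l]) (t : K → ℤ) :
    Prop :=
  ∀ i, |(t i : ℝ)| ≤ T ∧ ∀ l, ‖(t i : ℤ_[q l]) - α l i‖ ≤ T ^ (-σ)

theorem vec_classes {P ι : Type*} [Countable ι] {K : Type} [Fintype K] (z : P → K → ℤ) (S : ι → Set P) {s : ℝ}
    (hs : 0 ≤ s)
    (hS : ∀ i, ∀ ε : ℝ, 0 < ε → ∃ M : ℝ, ∀ X : ℝ, 1 ≤ X → {t : P | t ∈ S i ∧ ∀ j, |(z t j : ℝ)| ≤ X}.Finite ∧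
      ({t : P | t ∈ S i ∧ ∀ j, |(z t j : ℝ)| ≤ X}.ncard : ℝ) ≤ M * X ^ (s + ε))
    {r : ℕ} (q : Fin r → ℕ) [∀ l, Fact (q l).Prime] {σ : ℝ} (hσ : 0 < σ) :
    ∃ E : Set (∀ l, K → ℤ_[q l]), dimH E ≤ ENNReal.ofReal (s / σ) ∧ ∀ α ∉ E, ∀ i, ∃ T₀ : ℝ, ∀ T ≥ T₀, ∀ t : P,
      NearV q σ T α (z t) → t ∉ S i := by
  classical
  set ψ : (K → ℤ) → (∀ l, K → ℤ_[q l]) := fun t l i => (t i : ℤ_[q l]) with hψ
  set φ : P → (∀ l, K → ℤ_[q l]) := fun t => ψ (z t) with hφ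
  set ht : P → ℝ := fun t => max 1 ‖fun i => (z t i : ℝ)‖ with hht
  have habs : ∀ (t : P) (X : ℝ), ht t ≤ X → ∀ j, |(z t j : ℝ)| ≤ X := by
    intro t X h j
    have h1 := norm_le_pi_norm (fun i => (z t i : ℝ)) j
    rw [Real.norm_eq_abs] at h1
    exact h1.trans ((le_max_right _ _).trans h)
  obtain ⟨E, hE1, hE2⟩ := Pool.Agent.H107.ME.dim_family φ ht (fun t => le_max_left _ _) hs hσ S (fun j ε hε => by
      obtain ⟨C, hC⟩ := hS j ε hε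
      refine ⟨C, fun X hX => ?_⟩
      obtain ⟨g1, g2⟩ := hC X hX
      have hsub : {t | t ∈ S j ∧ ht t ≤ X} ⊆ {t : P | t ∈ S j ∧ ∀ i, |(z t i : ℝ)| ≤ X} := by
        rintro t ⟨a, b⟩
        exact ⟨a, habs t X b⟩
      refine ⟨g1.subset hsub, ?_⟩
      have h1 : ({t | t ∈ S j ∧ ht t ≤ X}.ncard : ℝ) ≤ ({t : P | t ∈ S j ∧ ∀ i, |(z t i : ℝ)| ≤ X}.ncard : ℝ) := by
        exact_mod_cast Set.ncard_le_ncard hsub g1
      exact h1.trans g2)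
  refine ⟨E ∪ Set.range ψ, ?_, fun α hα j => ?_⟩
  · rw [dimH_union, (Set.countable_range ψ).dimH_zero]
    exact max_le hE1 bot_le
  rw [Set.mem_union, not_or] at hα
  have hfin2 := hE2 α hα.1 j
  have hne : ∀ t ∈ {t | t ∈ S j ∧ dist (φ t) α ≤ (ht t) ^ (-σ)}, ∀ᶠ T : ℝ in atTop, T ^ (-σ) < dist (φ t) α := by
    intro t _
    have h1 : 0 < dist (φ t) α := dist_pos.2 fun h2 => hα.2 ⟨z t, h2⟩
    exact (tendsto_rpow_neg_atTop hσ).eventually (gt_mem_nhds h1)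
  obtain ⟨T₀, hT₀⟩ := eventually_atTop.1 ((Filter.eventually_all_finite hfin2).2 hne)
  refine ⟨max T₀ 1, fun T hT t htT hexc => ?_⟩
  have hT1 : 1 ≤ T := (le_max_right _ _).trans hT
  have hT0 : 0 < T := by linarith
  have hdist : dist (φ t) α ≤ T ^ (-σ) := by
    rw [dist_pi_le_iff (Real.rpow_nonneg hT0.le _)]
    intro l
    rw [dist_pi_le_iff (Real.rpow_nonneg hT0.le _)]
    intro i
    rw [dist_eq_norm]
    exact (htT i).2 l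
  have hle : ht t ≤ T := by
    refine max_le hT1 ?_
    rw [pi_norm_le_iff_of_nonneg hT0.le]
    intro i
    rw [Real.norm_eq_abs]
    exact (htT i).1
  have hmem : t ∈ {t | t ∈ S j ∧ dist (φ t) α ≤ (ht t) ^ (-σ)} :=
    ⟨hexc, hdist.trans (Real.rpow_le_rpow_of_nonpos (lt_of_lt_of_le one_pos (le_max_left _ _)) hle (by linarith))⟩
  have h3 := hT₀ T ((le_max_left _ _).trans hT) t hmem
  linarith

/-- the number of the integer vectors in a box -/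
lemma box_count {K : Type} [Fintype K] {X : ℝ} (hX : 1 ≤ X) :
    {t : K → ℤ | ∀ j, |(t j : ℝ)| ≤ X}.Finite ∧
      ({t : K → ℤ | ∀ j, |(t j : ℝ)| ≤ X}.ncard : ℝ) ≤ (3 * X) ^ Fintype.card K := by
  classical
  have hX0 : 0 ≤ X := by linarith
  have hsub : {t : K → ℤ | ∀ j, |(t j : ℝ)| ≤ X} ⊆ ((Fintype.piFinset fun _ : K => Finset.Icc (-⌊X⌋) ⌊X⌋ : Finset (K → ℤ)) :
      Set (K → ℤ)) := by
    intro t ht
    rw [Finset.mem_coe, Fintype.mem_piFinset]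
    intro j
    rw [Finset.mem_Icc]
    have h1 := abs_le.1 (ht j)
    have h2 : t j ≤ ⌊X⌋ := Int.le_floor.2 h1.2
    have h3 : -t j ≤ ⌊X⌋ := Int.le_floor.2 (by push_cast; linarith)
    exact ⟨by linarith, h2⟩
  refine ⟨(Finset.finite_toSet _).subset hsub, ?_⟩
  have h1 := Set.ncard_le_ncard hsub (Finset.finite_toSet _)
  rw [Set.ncard_coe_finset, Fintype.card_piFinset] at h1
  simp only [Int.card_Icc, Finset.prod_const, Finset.card_univ] at h1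
  have h2 : 0 ≤ ⌊X⌋ := Int.floor_nonneg.2 hX0
  have h3 : (((⌊X⌋ + 1 - -⌊X⌋).toNat : ℕ) : ℝ) ≤ 3 * X := by
    have h4 : (((⌊X⌋ + 1 - -⌊X⌋).toNat : ℕ) : ℤ) = 2 * ⌊X⌋ + 1 := by
      rw [Int.toNat_of_nonneg (by linarith)]
      ring
    have h5 : (((⌊X⌋ + 1 - -⌊X⌋).toNat : ℕ) : ℝ) = 2 * (⌊X⌋ : ℝ) + 1 := by exact_mod_cast h4
    rw [h5]
    linarith [Int.floor_le X]
  calc ({t : K → ℤ | ∀ j, |(t j : ℝ)| ≤ X}.ncard : ℝ) ≤ ((((⌊X⌋ + 1 - -⌊X⌋).toNat) ^ Fintype.card K : ℕ) : ℝ) := by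
        exact_mod_cast h1
    _ = (((⌊X⌋ + 1 - -⌊X⌋).toNat : ℕ) : ℝ) ^ Fintype.card K := by push_cast; ring
    _ ≤ (3 * X) ^ Fintype.card K := pow_le_pow_left₀ (Nat.cast_nonneg _) h3 _

end Pool.Agent.V11312.PW
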